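import Pool.Agent.CatP.Witness

/-! Over every field there are ideals of minors of catalecticant matrices which are not
saturated. -/

namespace Pool.Agent.Results.MP_bed02b_ag.NotSaturatedAnyField

open MvPolynomial Pool.Agent.H91.Cat Pool.Agent.CatP

universe u

theorem two_le_four : 2 ≤ 4 := by norm_num

theorem result (k : Type u) [Field k] :
    (¬ ∀ (n d i r : ℕ) (h : i ≤ d), 1 ≤ n → 1 ≤ r → IsSaturated (Minors k n d i h r)) ∧
    (CharZero k → ∃ f : MvPolynomial (Expo 7 4) k, f.IsHomogeneous 7 ∧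
      f ∉ Minors k 7 4 2 two_le_four 6 ∧ ∀ γ, X γ * f ∈ Minors k 7 4 2 two_le_four 6) ∧
    (CharP k 2 → Witness k 12 4 2 2 3 two_le_four) ∧
    (∀ (p : ℕ) (hp : p.Prime), p ≠ 2 → CharP k p →
      Witness k (p * p) p 1 (p - 1) p hp.one_lt.le) := by
  have h0 : CharZero k → ∃ f : MvPolynomial (Expo 7 4) k, f.IsHomogeneous 7 ∧
      f ∉ Minors k 7 4 2 two_le_four 6 ∧ ∀ γ, X γ * f ∈ Minors k 7 4 2 two_le_four 6 :=
    fun _ => ⟨Cpol k, Cpol_homogeneous k, Cpol_not_mem_charZero k two_le_four,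
      X_mul_mem k two_le_four (by norm_num)⟩
  have h2 : CharP k 2 → Witness k 12 4 2 2 3 two_le_four := fun _ => witness_two k two_le_four
  have hodd : ∀ (p : ℕ) (hp : p.Prime), p ≠ 2 → CharP k p →
      Witness k (p * p) p 1 (p - 1) p hp.one_lt.le :=
    fun p hp hp2 _ => witness_odd k p hp hp2 _
  refine ⟨fun h => ?_, h0, h2, hodd⟩
  rcases CharP.exists' k with hz | ⟨p, hp, hc⟩
  · obtain ⟨f, -, hf, hm⟩ := h0 hz
    exact not_saturated_of k _ f hf hm (h 7 4 2 6 two_le_four (by norm_num) (by norm_num))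
  · by_cases hp2 : p = 2
    · subst hp2
      exact (h2 hc).not_saturated (h 12 4 2 2 two_le_four (by norm_num) (by norm_num))
    · have h3 := hp.out.two_le
      exact (hodd p hp.out hp2 hc).not_saturated
        (h (p * p) p 1 (p - 1) _ (by nlinarith) (by omega))

end Pool.Agent.Results.MP_bed02b_ag.NotSaturatedAnyField
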